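import Mathlib
import Pool.Agent.H90.SyDefs
import Pool.Agent.H90.SyD
import Pool.Agent.H90.SyE

namespace Pool.Agent.Results.MP_92c8f1_an.NoVanish

open Pool.Agent.H90.Sy

theorem result (Ω : Type) [MetricSpace Ω] [CompactSpace Ω] [Nonempty Ω] [PerfectSpace Ω] :
    Amenable C(Ω, ℂ) ∧ ∀ n : ℕ, 2 ≤ n → ∃ M : BiMod C(Ω, ℂ), Symm M ∧ ¬HZero M n := by
  refine ⟨amen _, fun n hn => ?_⟩
  obtain ⟨k, rfl⟩ := Nat.exists_eq_add_one_of_ne_zero (by omega : n ≠ 0)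
  exact ⟨MM Ω k, fun _ _ => rfl, main (by omega)⟩

end Pool.Agent.Results.MP_92c8f1_an.NoVanish
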